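import Pool.Agent.Helper42.SQ.CNR
import Mathlib.Analysis.Convex.SpecificFunctions.Basic

/-!
# SQ, stage 7, block MON (helper24): monotonicity of the constant `1 / cnr n r`
-/

set_option autoImplicit false

namespace Pool.Agent.SQ

private theorem root_mono24 {a : ℝ} (ha : 0 ≤ a) {n m : ℕ} (hn : 0 < n) (hm : n ≤ m) :
    n * (1 - a ^ (1 / (n : ℝ))) ≤ m * (1 - a ^ (1 / (m : ℝ))) := by
  have hnR : (0 : ℝ) < n := by exact_mod_cast hn
  have hmR : (0 : ℝ) < m := by exact_mod_cast lt_of_lt_of_le hn hm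
  obtain ⟨b, hb⟩ : ∃ b, b = a ^ (1 / (m : ℝ)) := ⟨_, rfl⟩
  have hb0 : 0 ≤ b := by rw [hb]; exact Real.rpow_nonneg ha _
  have h1 : a ^ (1 / (n : ℝ)) = b ^ ((m : ℝ) / n) := by
    rw [hb, ← Real.rpow_mul ha]
    congr 1
    field_simp
  have h2 : (1 : ℝ) ≤ m / n := by
    rw [le_div_iff₀ hnR, one_mul]
    exact_mod_cast hm
  have h3 := one_add_mul_self_le_rpow_one_add (s := b - 1) (by linarith) h2
  rw [add_sub_cancel] at h3
  rw [← hb, h1]
  have h4 := mul_le_mul_of_nonneg_left h3 hnR.le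
  have h5 : n * (1 + (m : ℝ) / n * (b - 1)) = n + m * (b - 1) := by
    field_simp
  linarith

theorem cnr_zero' {r : ℕ} : cnr 0 r = 1 := by
  unfold cnr
  simp

/-- `(n + 1) cnr n r` is nonincreasing in `n` -/
theorem cnr_anti {m n r : ℕ} (hr : 0 < r) (hmn : m ≤ n) : (n + 1) * cnr n r ≤ (m + 1) * cnr m r := by
  have hrR : (1 : ℝ) ≤ r := by exact_mod_cast hr
  have ha : 0 ≤ 1 - 1 / (r : ℝ) := by
    rw [sub_nonneg, div_le_one (by linarith)]
    exact hrR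
  have ha1 : 1 - 1 / (r : ℝ) ≤ 1 := by
    have : 0 ≤ 1 / (r : ℝ) := by positivity
    linarith
  have e : ∀ l : ℕ, ((l : ℝ) + 1) * cnr l r = 1 - (r - 1) * (l * (1 - (1 - 1 / (r : ℝ)) ^ (1 / (l : ℝ)))) := by
    intro l
    unfold cnr
    have hl : (l : ℝ) + 1 ≠ 0 := by positivity
    rw [mul_div_cancel₀ _ hl]
    ring
  rw [e, e]
  have hr1 : (0 : ℝ) ≤ r - 1 := by linarith
  have key : (m : ℝ) * (1 - (1 - 1 / (r : ℝ)) ^ (1 / (m : ℝ))) ≤ n * (1 - (1 - 1 / (r : ℝ)) ^ (1 / (n : ℝ))) := by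
    rcases Nat.eq_zero_or_pos m with h0 | h0
    · subst h0
      rw [Nat.cast_zero, zero_mul]
      refine mul_nonneg (Nat.cast_nonneg n) ?_
      rw [sub_nonneg]
      exact Real.rpow_le_one ha ha1 (by positivity)
    · exact root_mono24 ha h0 hmn
  have := mul_le_mul_of_nonneg_left key hr1
  linarith

theorem cnr_pos' {n r : ℕ} (hr : 0 < r) : 0 < cnr n r := by
  rcases Nat.eq_zero_or_pos n with h0 | h0
  · subst h0
    rw [cnr_zero']
    exact one_pos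
  · exact cnr_pos h0 hr

private theorem cnr_one24 {r : ℕ} (hr : 0 < r) : cnr 1 r = 1 / (2 * r) := by
  have hrR : (0 : ℝ) < r := by exact_mod_cast hr
  unfold cnr
  rw [Nat.cast_one, div_one, Real.rpow_one]
  field_simp
  ring

private theorem cnr_step24 {n r : ℕ} (hr : 2 ≤ r) : 1 / cnr n r + 2 ≤ 1 / cnr (n + 1) r := by
  have hrR : (2 : ℝ) ≤ r := by exact_mod_cast hr
  have hr0 : 0 < r := by omega
  rcases Nat.eq_zero_or_pos n with h0 | h0
  · subst h0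
    rw [cnr_zero', zero_add, cnr_one24 hr0]
    rw [one_div_one_div]
    linarith
  have h1 := cnr_anti (r := r) hr0 (Nat.le_succ n)
  have h2 := cnr_anti (r := r) hr0 h0
  rw [cnr_one24 hr0] at h2
  obtain ⟨x, hx⟩ : ∃ x, x = cnr n r := ⟨_, rfl⟩
  obtain ⟨y, hy⟩ : ∃ y, y = cnr (n + 1) r := ⟨_, rfl⟩
  have hx0 : 0 < x := by rw [hx]; exact cnr_pos' hr0
  have hy0 : 0 < y := by rw [hy]; exact cnr_pos' hr0
  rw [← hx, ← hy] at h1
  rw [← hx] at h2
  rw [← hx, ← hy]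
  have hn : (1 : ℝ) ≤ n := by exact_mod_cast h0
  push_cast at h1 h2
  -- `(n + 1) x ≤ 1 / r ≤ 1 / 2`
  have h3 : ((n : ℝ) + 1) * x ≤ 1 / 2 := by
    refine h2.trans ?_
    have h4 : (1 : ℝ) / (2 * r) ≤ 1 / 4 := by
      rw [div_le_div_iff₀ (by positivity) (by norm_num)]
      linarith
    linarith
  -- `1 / y ≥ (n + 2) / ((n + 1) x)`
  have h4 : 1 / x + 2 ≤ (n + 2) / ((n + 1) * x) := by
    rw [le_div_iff₀ (by positivity)]
    have h5 : (1 / x + 2) * (((n : ℝ) + 1) * x) = (n + 1) + 2 * ((n + 1) * x) := by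
      field_simp
    rw [h5]
    linarith
  refine h4.trans ?_
  rw [div_le_div_iff₀ (by positivity) hy0]
  linarith

private theorem cnr_add24 {n p r : ℕ} (hp : p ≤ n) (hr : 2 ≤ r) : 1 / cnr (n - p) r + 2 * p ≤ 1 / cnr n r := by
  obtain ⟨m, rfl⟩ : ∃ m, n = m + p := ⟨n - p, by omega⟩
  rw [Nat.add_sub_cancel]
  clear hp
  induction p with
  | zero => simp
  | succ p ih =>
    have h1 := cnr_step24 (n := m + p) hr
    rw [← add_assoc m p 1]
    push_cast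
    linarith


theorem cnr_eq' {n r : ℕ} (hr : 0 < r) : ∃ θ : ℝ, 0 ≤ θ ∧ θ ≤ 1 ∧ r * Eq n θ - (r - 1) * θ = cnr n r := by
  rcases Nat.eq_zero_or_pos n with h0 | h0
  · subst h0
    refine ⟨1, zero_le_one, le_rfl, ?_⟩
    rw [cnr_zero']
    unfold Eq
    simp
  · exact cnr_eq h0 hr

private theorem root24 {n r : ℕ} (hn : 0 < n) (hr : 0 < r) :
    ∃ ρ : ℝ, ρ = (1 - 1 / (r : ℝ)) ^ (1 / (n : ℝ)) ∧ 0 ≤ ρ ∧ ρ ≤ 1 ∧ r * ρ ^ n = r - 1 := by
  have hrR : (1 : ℝ) ≤ r := by exact_mod_cast hr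
  have h1 : 0 ≤ 1 - 1 / (r : ℝ) := by
    rw [sub_nonneg, div_le_one (by linarith)]
    exact hrR
  have h2 : 1 - 1 / (r : ℝ) ≤ 1 := by
    have : 0 ≤ 1 / (r : ℝ) := by positivity
    linarith
  refine ⟨_, rfl, Real.rpow_nonneg h1 _, Real.rpow_le_one h1 h2 (by positivity), ?_⟩
  rw [← Real.rpow_natCast, ← Real.rpow_mul h1, one_div_mul_cancel (by positivity), Real.rpow_one]
  field_simp

private theorem val24 {n r : ℕ} {ρ : ℝ} (h : r * ρ ^ n = r - 1) :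
    r * Eq n (1 - ρ) - (r - 1) * (1 - ρ) = (1 - n * (r - 1) * (1 - ρ)) / (n + 1) := by
  have h1 : (r : ℝ) * ρ ^ (n + 1) = (r - 1) * ρ := by rw [pow_succ, ← mul_assoc, h]
  have hn : (n : ℝ) + 1 ≠ 0 := by positivity
  unfold Eq
  rw [sub_sub_cancel]
  have h2 : (r : ℝ) * ((1 - ρ ^ (n + 1)) / (n + 1)) = (r - (r - 1) * ρ) / (n + 1) := by
    rw [← h1]
    ring
  rw [h2]
  field_simp
  ring

private theorem max24 {n r : ℕ} {ρ : ℝ} (hρ : 0 ≤ ρ) (h : r * ρ ^ n = r - 1) {a : ℝ} (ha : 0 ≤ a) :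
    r * Eq n (1 - a) - (r - 1) * (1 - a) ≤ r * Eq n (1 - ρ) - (r - 1) * (1 - ρ) := by
  have hn : (0 : ℝ) < (n : ℝ) + 1 := by positivity
  have h1 : ρ ^ (n + 1) + (n + 1) * ρ ^ n * (a - ρ) ≤ a ^ (n + 1) := by
    rcases hρ.eq_or_lt with h0 | h0
    · subst h0
      rcases Nat.eq_zero_or_pos n with hn0 | hn0
      · subst hn0
        simp
      · rw [zero_pow hn0.ne', zero_pow (Nat.succ_ne_zero n)]
        simp
        positivity
    · have h2 := one_add_mul_sub_le_pow (a := a / ρ) (by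
        have : 0 ≤ a / ρ := by positivity
        linarith) (n + 1)
      rw [div_pow, le_div_iff₀ (by positivity)] at h2
      refine le_trans (le_of_eq ?_) h2
      push_cast
      field_simp
      ring
  unfold Eq
  rw [sub_sub_cancel, sub_sub_cancel]
  have h3 : (r : ℝ) * (ρ ^ (n + 1) + (n + 1) * ρ ^ n * (a - ρ)) ≤ r * a ^ (n + 1) :=
    mul_le_mul_of_nonneg_left h1 (Nat.cast_nonneg r)
  have h4 : (r : ℝ) * (ρ ^ (n + 1) + (n + 1) * ρ ^ n * (a - ρ)) = r * ρ ^ (n + 1) + (n + 1) * (r - 1) * (a - ρ) := by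
    rw [← h]
    ring
  rw [h4] at h3
  have h5 : ((r : ℝ) * ((1 - ρ ^ (n + 1)) / (n + 1)) - (r - 1) * (1 - ρ)) -
      (r * ((1 - a ^ (n + 1)) / (n + 1)) - (r - 1) * (1 - a)) =
      (r * a ^ (n + 1) - (r * ρ ^ (n + 1) + (n + 1) * (r - 1) * (a - ρ))) / (n + 1) := by
    field_simp
    ring
  have h6 : 0 ≤ (r * a ^ (n + 1) - (r * ρ ^ (n + 1) + (n + 1) * (r - 1) * (a - ρ))) / ((n : ℝ) + 1) :=
    div_nonneg (sub_nonneg.2 h3) hn.le
  rw [← h5] at h6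
  linarith

/-- `cnr n r` is the maximum of `r * Eq n θ - (r - 1) * θ` -/
theorem cnr_max24 {n r : ℕ} (hr : 0 < r) {θ : ℝ} (h1 : θ ≤ 1) : r * Eq n θ - (r - 1) * θ ≤ cnr n r := by
  rcases Nat.eq_zero_or_pos n with h0 | h0
  · subst h0
    rw [cnr_zero']
    unfold Eq
    simp
    linarith
  · obtain ⟨ρ, h2, h3, h4, h5⟩ := root24 h0 hr
    have h6 := max24 h3 h5 (a := 1 - θ) (by linarith)
    rw [val24 h5, sub_sub_cancel] at h6
    rw [cnr, ← h2]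
    exact h6

private theorem Eq_le24 (n : ℕ) {θ : ℝ} (h1 : θ ≤ 1) : Eq n θ ≤ θ := by
  unfold Eq
  rw [div_le_iff₀ (by positivity)]
  have h2 := one_add_mul_le_pow (a := -θ) (by linarith) (n + 1)
  rw [← sub_eq_add_neg] at h2
  push_cast at h2
  linarith

/-- `cnr n r` is nonincreasing in `r` -/
theorem cnr_anti_r {n r' r : ℕ} (hr' : 0 < r') (h : r' ≤ r) : cnr n r ≤ cnr n r' := by
  obtain ⟨θ, h0, h1, h2⟩ := cnr_eq' (n := n) (lt_of_lt_of_le hr' h)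
  have h3 := cnr_max24 (n := n) hr' h1
  have h4 := Eq_le24 n h1
  have h5 : (r' : ℝ) ≤ r := by exact_mod_cast h
  nlinarith

/-- **MON** -/
theorem cnr_shift {n p r' r : ℕ} (hp : p ≤ n) (hr' : 0 < r') (hr : 2 ≤ r) (h : r' ≤ r) :
    1 / cnr (n - p) r' + 2 * p ≤ 1 / cnr n r := by
  have h1 : 1 / cnr (n - p) r' ≤ 1 / cnr (n - p) r :=
    one_div_le_one_div_of_le (cnr_pos' (lt_of_lt_of_le hr' h)) (cnr_anti_r hr' h)
  have h2 := cnr_add24 hp hr
  linarith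

end Pool.Agent.SQ
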