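import Pool.Agent.Helper21.S7.Defs7
import Pool.Agent.Helper42.SQ.SNF
import Mathlib.Analysis.SpecialFunctions.Integrals.Basic

/-!
# SQ, stage 7, block ADP (helper24): adapted bases and the integral of `pl`

`adapted_24` is helper12's lemma of `Pool/Agent/Helper42/SQ/SNF.lean`.
-/

set_option autoImplicit false

namespace Pool.Agent.SQ

open Module Polynomial MeasureTheory intervalIntegral

section

variable {k : Type*} {K : Type*} [Field k] [Field K] [Algebra k K]

private theorem mem_lev_24 {ω : K → ℝ} (h : RV k ω) (c : ℝ) (x : K) : x ∈ lev h c ↔ x = 0 ∨ c ≤ ω x := Iff.rfl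

private theorem lev_anti_24 {ω : K → ℝ} (h : RV k ω) {a b : ℝ} (hab : a ≤ b) : lev h b ≤ lev h a := by
  intro x hx
  rcases (mem_lev_24 h b x).1 hx with hx | hx
  · exact Or.inl hx
  · exact Or.inr (hab.trans hx)

/-- the elements of value larger than `c` -/
private def levlt_24 {ω : K → ℝ} (h : RV k ω) (c : ℝ) : Submodule k K where
  carrier := {x | x = 0 ∨ c < ω x}
  zero_mem' := Or.inl rfl
  add_mem' := by
    intro x y hx hy
    rcases hx with rfl | hx
    · simpa using hy
    rcases hy with rfl | hy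
    · rw [add_zero]; exact Or.inr hx
    by_cases hxy : x + y = 0
    · exact Or.inl hxy
    by_cases hx0 : x = 0
    · subst hx0; rw [zero_add]; exact Or.inr hy
    by_cases hy0 : y = 0
    · subst hy0; rw [add_zero]; exact Or.inr hx
    exact Or.inr ((lt_min hx hy).trans_le (h.add x y hx0 hy0 hxy))
  smul_mem' := by
    intro c x hx
    rcases hx with rfl | hx
    · simp
    by_cases hc : c = 0
    · left; simp [hc]
    by_cases hx0 : x = 0
    · left; simp [hx0]
    right
    rw [h.smul c x hc hx0]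
    exact hx

private theorem mem_levlt_24 {ω : K → ℝ} (h : RV k ω) (c : ℝ) (x : K) : x ∈ levlt_24 h c ↔ x = 0 ∨ c < ω x := Iff.rfl

variable {ω : K → ℝ} (h : RV k ω)

private theorem adapted_24 (n : ℕ) : ∀ E : Submodule k K, FiniteDimensional k E → finrank k E = n →
    ∃ e : Fin n → K, LinearIndependent k e ∧ (∀ i, e i ∈ E) ∧
      ∀ a : ℝ, (finrank k ↥(E ⊓ lev h a) : ℝ) ≤ ∑ i, if a ≤ ω (e i) then (1 : ℝ) else 0 := by
  induction n with
  | zero =>
    intro E hE hn
    refine ⟨Fin.elim0, linearIndependent_empty_type, fun i => i.elim0, fun a => ?_⟩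
    have h1 : finrank k ↥(E ⊓ lev h a) ≤ finrank k E := Submodule.finrank_mono inf_le_left
    rw [hn] at h1
    have h2 : finrank k ↥(E ⊓ lev h a) = 0 := Nat.le_zero.1 h1
    rw [h2]; simp
  | succ n ih =>
    intro E hE hn
    -- the least value
    let b := Module.finBasis k E
    have hne : Nonempty (Fin (finrank k E)) := ⟨⟨0, by rw [hn]; exact Nat.succ_pos n⟩⟩
    obtain ⟨i0, hi0⟩ := Finite.exists_min fun i : Fin (finrank k E) => ω (b i : K)
    set c0 := ω (b i0 : K) with hc0
    have hb0 : ∀ i, (b i : K) ≠ 0 := fun i h0 => b.ne_zero i (Subtype.ext h0)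
    have hmin : ∀ x ∈ E, x ∈ lev h c0 := by
      intro x hx
      have h1 := b.sum_repr ⟨x, hx⟩
      have h2 : x = ∑ i, b.repr ⟨x, hx⟩ i • (b i : K) := by
        have := congrArg (Submodule.subtype E) h1
        rw [map_sum] at this
        simp only [map_smul, Submodule.subtype_apply] at this
        exact this.symm
      rw [h2]
      exact Submodule.sum_mem _ fun i _ => Submodule.smul_mem _ _ (Or.inr (hi0 i))
    -- a hyperplane containing the elements of larger value
    let p : Submodule k E := (levlt_24 h c0).comap E.subtype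
    have hp : p < ⊤ := by
      refine lt_top_iff_ne_top.2 fun h1 => ?_
      have h2 : b i0 ∈ p := by rw [h1]; trivial
      rcases h2 with h2 | h2
      · exact hb0 i0 h2
      · exact lt_irrefl _ h2
    obtain ⟨f, hf, hpf⟩ := Submodule.exists_le_ker_of_lt_top p hp
    set E' : Submodule k K := (LinearMap.ker f).map E.subtype with hE'
    have hE'E : E' ≤ E := Submodule.map_subtype_le _ _
    have : FiniteDimensional k E' := Submodule.finiteDimensional_of_le hE'E
    have hr : finrank k E' = n := by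
      have h1 : finrank k E' = finrank k (LinearMap.ker f) :=
        (Submodule.equivSubtypeMap E (LinearMap.ker f)).finrank_eq.symm
      have h2 := f.finrank_range_add_finrank_ker
      have h3 : finrank k (LinearMap.range f) = 1 := by
        have : LinearMap.range f = ⊤ := LinearMap.range_eq_top.2 (LinearMap.surjective hf)
        rw [this, finrank_top]; exact finrank_self k
      omega
    obtain ⟨e, he, heE, hea⟩ := ih E' inferInstance hr
    obtain ⟨x, hx⟩ : ∃ x : E, f x ≠ 0 := by
      by_contra hcon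
      push Not at hcon
      exact hf (LinearMap.ext hcon)
    have hxE' : (x : K) ∉ E' := by
      rintro ⟨y, hy, hyx⟩
      have : y = x := Subtype.ext hyx
      rw [this] at hy
      exact hx hy
    have hx0 : (x : K) ≠ 0 := fun h0 => hxE' (by rw [h0]; exact E'.zero_mem)
    have hωx : c0 ≤ ω x := by
      rcases hmin x x.2 with h1 | h1
      · exact absurd h1 hx0
      · exact h1
    have hlt : ∀ y ∈ E, y ∈ levlt_24 h c0 → y ∈ E' := by
      intro y hy hy2
      exact ⟨⟨y, hy⟩, hpf hy2, rfl⟩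
    refine ⟨Fin.cons (x : K) e, ?_, ?_, fun a => ?_⟩
    · rw [linearIndependent_finCons]
      refine ⟨he, fun hmem => hxE' ?_⟩
      refine (Submodule.span_le.2 ?_) hmem
      rintro _ ⟨i, rfl⟩
      exact heE i
    · intro i
      refine Fin.cases ?_ (fun i => ?_) i
      · exact x.2
      · exact hE'E (heE i)
    · rw [Fin.sum_univ_succ]
      simp only [Fin.cons_zero, Fin.cons_succ]
      rcases le_or_gt a c0 with ha | ha
      · have h1 : (finrank k ↥(E ⊓ lev h a) : ℝ) ≤ n + 1 := by
          have : finrank k ↥(E ⊓ lev h a) ≤ finrank k E := Submodule.finrank_mono inf_le_left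
          rw [hn] at this
          exact_mod_cast this
        have h2 : ∀ i : Fin n, (if a ≤ ω (e i) then (1 : ℝ) else 0) = 1 := by
          intro i
          rw [if_pos]
          refine ha.trans ?_
          rcases hmin (e i) (hE'E (heE i)) with h3 | h3
          · exact absurd h3 (he.ne_zero i)
          · exact h3
        rw [if_pos (ha.trans hωx), Finset.sum_congr rfl fun i _ => h2 i]
        simp only [Finset.sum_const, Finset.card_univ, Fintype.card_fin, nsmul_eq_mul, mul_one]
        linarith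
      · have h1 : E ⊓ lev h a ≤ E' ⊓ lev h a := by
          intro y hy
          refine ⟨hlt y hy.1 ?_, hy.2⟩
          rcases hy.2 with h2 | h2
          · exact Or.inl h2
          · exact Or.inr (ha.trans_le h2)
        have : FiniteDimensional k ↥(E' ⊓ lev h a) := Submodule.finiteDimensional_of_le inf_le_left
        have h2 : (finrank k ↥(E ⊓ lev h a) : ℝ) ≤ finrank k ↥(E' ⊓ lev h a) := by
          exact_mod_cast Submodule.finrank_mono h1
        have h3 := hea a
        have h4 : (0 : ℝ) ≤ if a ≤ ω (x : K) then (1 : ℝ) else 0 := by split_ifs <;> norm_num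
        linarith

/-- a basis adapted to the levels -/
theorem exists_adapted (E : Submodule k K) [FiniteDimensional k E] : ∃ e : Fin (finrank k E) → K, LinearIndependent k e ∧
    (∀ i, e i ∈ E) ∧ ∀ a : ℝ, (finrank k ↥(E ⊓ lev h a) : ℝ) = ∑ i, if a ≤ ω (e i) then (1 : ℝ) else 0 := by
  obtain ⟨e, he, heE, hea⟩ := adapted_24 h (finrank k E) E inferInstance rfl
  refine ⟨e, he, heE, fun a => le_antisymm (hea a) ?_⟩
  rw [← Finset.sum_filter, Finset.sum_const, nsmul_eq_mul, mul_one]
  have : FiniteDimensional k ↥(E ⊓ lev h a) := Submodule.finiteDimensional_of_le inf_le_left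
  have h3 : LinearIndependent k fun i : {i : Fin (finrank k E) // a ≤ ω (e i)} => (⟨e i, heE _, Or.inr i.2⟩ : ↥(E ⊓ lev h a)) := by
    refine LinearIndependent.of_comp (Submodule.subtype _) ?_
    exact he.comp (fun i : {i : Fin (finrank k E) // a ≤ ω (e i)} => (i : Fin (finrank k E))) Subtype.val_injective
  have h4 := h3.fintype_card_le_finrank
  rw [Fintype.card_subtype] at h4
  exact_mod_cast h4

private theorem anti_step24 (u : ℝ) : Antitone fun x : ℝ => if x ≤ u then (1 : ℝ) else 0 := by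
  intro x y hxy
  show (if y ≤ u then (1 : ℝ) else 0) ≤ if x ≤ u then (1 : ℝ) else 0
  split_ifs with h1 h2
  · exact le_rfl
  · exact absurd (hxy.trans h1) h2
  · exact zero_le_one
  · exact le_rfl

private theorem int_step24 {u B : ℝ} (hu : 0 ≤ u) (hB : 0 ≤ B) :
    ∫ x in (0 : ℝ)..B, (if x ≤ u then (1 : ℝ) else 0) = min B u := by
  have hi : ∀ a b : ℝ, IntervalIntegrable (fun x : ℝ => if x ≤ u then (1 : ℝ) else 0) volume a b := fun a b =>
    (anti_step24 u).intervalIntegrable
  rcases le_total B u with h1 | h1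
  · rw [min_eq_left h1]
    have h2 : ∫ x in (0 : ℝ)..B, (if x ≤ u then (1 : ℝ) else 0) = ∫ _x in (0 : ℝ)..B, (1 : ℝ) := by
      refine integral_congr fun x hx => ?_
      rw [Set.uIcc_of_le hB] at hx
      exact if_pos (hx.2.trans h1)
    rw [h2, intervalIntegral.integral_const, smul_eq_mul, mul_one, sub_zero]
  · rw [min_eq_right h1, ← integral_add_adjacent_intervals (hi 0 u) (hi u B)]
    have h2 : ∫ x in (0 : ℝ)..u, (if x ≤ u then (1 : ℝ) else 0) = ∫ _x in (0 : ℝ)..u, (1 : ℝ) := by
      refine integral_congr fun x hx => ?_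
      rw [Set.uIcc_of_le hu] at hx
      exact if_pos hx.2
    have h3 : ∫ x in u..B, (if x ≤ u then (1 : ℝ) else 0) = 0 := by
      refine integral_zero_ae (Filter.Eventually.of_forall fun x hx => ?_)
      rw [Set.uIoc_of_le h1] at hx
      exact if_neg (not_le.2 hx.1)
    rw [h2, h3, intervalIntegral.integral_const, smul_eq_mul, mul_one, sub_zero, add_zero]

/-- the integral of the dimension of the levels is a sum over an adapted basis -/
theorem int_dim (E : Submodule k K) [FiniteDimensional k E] (c : ℝ) (h0 : ∀ x ∈ E, x ≠ 0 → 0 ≤ ω x + c) :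
    ∃ e : Fin (finrank k E) → K, LinearIndependent k e ∧ (∀ i, e i ∈ E) ∧ ∀ B : ℝ, 0 ≤ B →
      ∫ x in (0 : ℝ)..B, (finrank k ↥(E ⊓ lev h (x - c)) : ℝ) = ∑ i, min B (ω (e i) + c) := by
  obtain ⟨e, he, heE, hea⟩ := exists_adapted h E
  refine ⟨e, he, heE, fun B hB => ?_⟩
  have h1 : ∀ x : ℝ, (finrank k ↥(E ⊓ lev h (x - c)) : ℝ) = ∑ i, if x ≤ ω (e i) + c then (1 : ℝ) else 0 := by
    intro x
    rw [hea]
    refine Finset.sum_congr rfl fun i _ => ?_
    simp only [sub_le_iff_le_add]
  simp only [h1]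
  rw [intervalIntegral.integral_finsetSum fun i _ => (anti_step24 _).intervalIntegrable]
  exact Finset.sum_congr rfl fun i _ => int_step24 (h0 _ (heE i) (he.ne_zero i)) hB

/-- the dimension of the levels is antitone -/
theorem dim_anti (E : Submodule k K) [FiniteDimensional k E] (c : ℝ) :
    Antitone fun x : ℝ => (finrank k ↥(E ⊓ lev h (x - c)) : ℝ) := by
  intro x y hxy
  have : FiniteDimensional k ↥(E ⊓ lev h (x - c)) := Submodule.finiteDimensional_of_le inf_le_left
  have h1 : finrank k ↥(E ⊓ lev h (y - c)) ≤ finrank k ↥(E ⊓ lev h (x - c)) :=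
    Submodule.finrank_mono (inf_le_inf_left _ (lev_anti_24 h (by linarith)))
  exact Nat.cast_le.2 h1

private theorem cnt_le24 (y : ℝ) (hy : 0 ≤ y) (M : ℕ) :
    (∑ j ∈ Finset.Icc 1 M, if (j : ℝ) ≤ y then (1 : ℝ) else 0) ≤ y := by
  rw [← Finset.sum_filter, Finset.sum_const, nsmul_eq_mul, mul_one]
  have h1 : (Finset.Icc 1 M).filter (fun j : ℕ => (j : ℝ) ≤ y) ⊆ Finset.Icc 1 ⌊y⌋₊ := by
    intro j hj
    rw [Finset.mem_filter, Finset.mem_Icc] at hj
    rw [Finset.mem_Icc]
    exact ⟨hj.1.1, Nat.le_floor hj.2⟩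
  have h2 := Finset.card_le_card h1
  rw [Nat.card_Icc, Nat.add_sub_cancel] at h2
  calc (((Finset.Icc 1 M).filter (fun j : ℕ => (j : ℝ) ≤ y)).card : ℝ) ≤ (⌊y⌋₊ : ℝ) := by exact_mod_cast h2
    _ ≤ y := Nat.floor_le hy

private theorem lev_mul24 (a b : ℝ) : lev h a * lev h b ≤ lev h (a + b) := by
  rw [Submodule.mul_le]
  intro x hx y hy
  rcases (mem_lev_24 h a x).1 hx with hx | hx
  · rw [hx, zero_mul]
    exact Submodule.zero_mem _
  rcases (mem_lev_24 h b y).1 hy with hy | hy
  · rw [hy, mul_zero]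
    exact Submodule.zero_mem _
  by_cases hx0 : x = 0
  · rw [hx0, zero_mul]
    exact Submodule.zero_mem _
  by_cases hy0 : y = 0
  · rw [hy0, mul_zero]
    exact Submodule.zero_mem _
  · right
    rw [h.mul x y hx0 hy0]
    exact add_le_add hx hy

private theorem lev_pow24 {E : Submodule k K} {c : ℝ} (hE : E ≤ lev h c) (m : ℕ) : E ^ m ≤ lev h (m * c) := by
  induction m with
  | zero =>
    rw [pow_zero, Nat.cast_zero, zero_mul, Submodule.one_eq_range]
    rintro _ ⟨x, rfl⟩
    by_cases hx : x = 0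
    · left
      rw [hx, map_zero]
    · right
      have h1 : ω 1 = 0 := by
        have := h.mul 1 1 one_ne_zero one_ne_zero
        rw [one_mul] at this
        linarith
      have h2 := h.smul x 1 hx one_ne_zero
      rw [h1] at h2
      rw [Algebra.linearMap_apply, Algebra.algebraMap_eq_smul_one, h2]
  | succ m ih =>
    rw [pow_succ]
    refine (mul_le_mul' ih hE).trans ((lev_mul24 h _ _).trans (le_of_eq ?_))
    push_cast
    ring_nf

include h in
/-- on the powers -/
private theorem pow_nonneg24 (c : ℝ) (V : Submodule k K) (ha : ∀ x ∈ V, x ≠ 0 → 0 ≤ ω x + c) (m : ℕ) :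
    ∀ x ∈ V ^ m, x ≠ 0 → 0 ≤ ω x + m * c := by
  intro x hx hx0
  have h1 : V ≤ lev h (-c) := by
    intro y hy
    by_cases hy0 : y = 0
    · exact Or.inl hy0
    · right
      have := ha y hy hy0
      linarith
  rcases lev_pow24 h h1 m hx with h2 | h2
  · exact absurd h2 hx0
  · have h3 : (m : ℝ) * -c ≤ ω x := h2
    linarith

private theorem fin_pow24 (V : Submodule k K) [FiniteDimensional k V] (m : ℕ) : FiniteDimensional k ↥(V ^ m) :=
  Module.Finite.iff_fg.2 (Submodule.FG.pow (Module.Finite.iff_fg.1 inferInstance) m)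

private theorem pl_mul24 (c : ℝ) (V : Submodule k K) [FiniteDimensional k V] (m : ℕ) (x : ℝ) :
    finrank k ↥(V ^ m) * pl h c V m x = finrank k ↥(V ^ m ⊓ lev h (m * (x - c))) := by
  have := fin_pow24 V m
  have h1 : finrank k ↥(V ^ m ⊓ lev h (m * (x - c))) ≤ finrank k ↥(V ^ m) := Submodule.finrank_mono inf_le_left
  unfold pl
  rcases Nat.eq_zero_or_pos (finrank k ↥(V ^ m)) with h0 | h0
  · rw [h0] at h1 ⊢
    rw [Nat.le_zero.1 h1, Nat.cast_zero, zero_mul]
  · exact mul_div_cancel₀ _ (by exact_mod_cast h0.ne')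

end

theorem pl_facts {k K : Type*} [Field k] [Field K] [Algebra k K] {ω : K → ℝ} (h : RV k ω) (c : ℝ) (V : Submodule k K)
    [FiniteDimensional k V] (hV : V ≠ ⊥) (ha : ∀ x ∈ V, x ≠ 0 → 0 ≤ ω x + c) {m : ℕ} (hm : 0 < m) :
    Antitone (pl h c V m) ∧ (∀ x, 0 ≤ pl h c V m x) ∧ (∀ x, pl h c V m x ≤ 1) ∧ (∀ x ≤ 0, pl h c V m x = 1) ∧
      ∀ X : ℝ, (∀ x ∈ V ^ m, x ≠ 0 → ω x + m * c ≤ m * X) → ∀ x, X < x → pl h c V m x = 0 := by
  have := fin_pow24 V m
  have hmR : (0 : ℝ) < m := by exact_mod_cast hm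
  have hpos : 0 < finrank k ↥(V ^ m) := by
    obtain ⟨y, hy, hy0⟩ := Submodule.exists_mem_ne_zero_of_ne_bot hV
    have h1 : y ^ m ∈ V ^ m := Submodule.pow_mem_pow V hy m
    have h2 : V ^ m ≠ ⊥ := fun h3 => pow_ne_zero m hy0 ((Submodule.mem_bot k).1 (h3 ▸ h1))
    have h3 : Nontrivial ↥(V ^ m) := Submodule.nontrivial_iff_ne_bot.2 h2
    exact finrank_pos
  have hposR : (0 : ℝ) < finrank k ↥(V ^ m) := by exact_mod_cast hpos
  refine ⟨?_, ?_, ?_, ?_, ?_⟩
  · intro x y hxy
    unfold pl
    have h0 : FiniteDimensional k ↥(V ^ m ⊓ lev h (m * (x - c))) := Submodule.finiteDimensional_of_le inf_le_left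
    refine div_le_div_of_nonneg_right ?_ hposR.le
    exact Nat.cast_le.2 (Submodule.finrank_mono (inf_le_inf_left _ (lev_anti_24 h
      (mul_le_mul_of_nonneg_left (by linarith) hmR.le))))
  · intro x
    unfold pl
    positivity
  · intro x
    unfold pl
    rw [div_le_one hposR]
    exact Nat.cast_le.2 (Submodule.finrank_mono inf_le_left)
  · intro x hx
    unfold pl
    have h1 : V ^ m ⊓ lev h (m * (x - c)) = V ^ m := by
      refine inf_eq_left.2 fun y hy => ?_
      by_cases hy0 : y = 0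
      · exact Or.inl hy0
      · right
        have h2 := pow_nonneg24 h c V ha m y hy hy0
        nlinarith
    rw [h1, div_self hposR.ne']
  · intro X hX x hx
    unfold pl
    have h1 : V ^ m ⊓ lev h (m * (x - c)) = ⊥ := by
      rw [Submodule.eq_bot_iff]
      intro y hy
      rcases hy.2 with h2 | h2
      · exact h2
      · by_contra hy0
        have h3 := hX y hy.1 hy0
        nlinarith
    rw [h1, finrank_bot, Nat.cast_zero, zero_div]

theorem adp {k K : Type*} [Field k] [Field K] [Algebra k K] {ω : K → ℝ} (h : RV k ω) (c : ℝ) (V : Submodule k K)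
    [FiniteDimensional k V] (ha : ∀ x ∈ V, x ≠ 0 → 0 ≤ ω x + c) {m : ℕ} (hm : 0 < m) :
    ∃ e : Fin (finrank k ↥(V ^ m)) → K, LinearIndependent k e ∧ (∀ i, e i ∈ V ^ m) ∧
      (∀ N : ℕ, 0 < N → (SN h N (m * c) (V ^ m) : ℝ) ≤ N * ∑ i, (ω (e i) + m * c)) ∧
      ∀ b : ℝ, 0 ≤ b → ∑ i, min b (ω (e i) / m + c) = finrank k ↥(V ^ m) * ∫ x in (0 : ℝ)..b, pl h c V m x := by
  have := fin_pow24 V m
  have hmR : (0 : ℝ) < m := by exact_mod_cast hm
  have hp := pow_nonneg24 h c V ha m
  obtain ⟨e, he, heE, hea⟩ := exists_adapted h (V ^ m)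
  refine ⟨e, he, heE, ?_, ?_⟩
  · intro N hN
    have hN' : (0 : ℝ) < N := by exact_mod_cast hN
    obtain ⟨M, hM⟩ := SN_eq h (V ^ m) hN (m * c)
    rw [hM M le_rfl (V ^ m) le_rfl]
    push_cast
    calc (∑ j ∈ Finset.Icc 1 M, (finrank k ↥(V ^ m ⊓ lev h ((j : ℝ) / N - m * c)) : ℝ))
        ≤ ∑ j ∈ Finset.Icc 1 M, ∑ i, if ((j : ℝ) ≤ N * (ω (e i) + m * c)) then (1 : ℝ) else 0 := by
          refine Finset.sum_le_sum fun j _ => (hea _).le.trans (le_of_eq ?_)
          refine Finset.sum_congr rfl fun i _ => ?_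
          have : (j : ℝ) / N - m * c ≤ ω (e i) ↔ (j : ℝ) ≤ N * (ω (e i) + m * c) := by
            rw [sub_le_iff_le_add, div_le_iff₀ hN', mul_comm]
          simp only [this]
      _ = ∑ i, ∑ j ∈ Finset.Icc 1 M, if ((j : ℝ) ≤ N * (ω (e i) + m * c)) then (1 : ℝ) else 0 := Finset.sum_comm
      _ ≤ ∑ i, N * (ω (e i) + m * c) := Finset.sum_le_sum fun i _ =>
          cnt_le24 _ (mul_nonneg hN'.le (hp _ (heE i) (he.ne_zero i))) M
      _ = N * ∑ i, (ω (e i) + m * c) := by rw [Finset.mul_sum]
  · intro b hb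
    have h1 : ∀ x : ℝ, finrank k ↥(V ^ m) * pl h c V m x = ∑ i, if x ≤ ω (e i) / m + c then (1 : ℝ) else 0 := by
      intro x
      rw [pl_mul24, hea]
      refine Finset.sum_congr rfl fun i _ => ?_
      have : (m : ℝ) * (x - c) ≤ ω (e i) ↔ x ≤ ω (e i) / m + c := by
        rw [← sub_le_iff_le_add, le_div_iff₀ hmR, mul_comm]
      simp only [this]
    rw [← intervalIntegral.integral_const_mul]
    simp only [h1]
    rw [intervalIntegral.integral_finsetSum fun i _ => (anti_step24 _).intervalIntegrable]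
    refine Finset.sum_congr rfl fun i _ => (int_step24 ?_ hb).symm
    have h2 := hp _ (heE i) (he.ne_zero i)
    have h3 : ω (e i) / m + c = (ω (e i) + m * c) / m := by
      field_simp
    rw [h3]
    exact div_nonneg h2 hmR.le

end Pool.Agent.SQ
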