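import Pool.Agent.Helper67.SQ4.Defs5
import Mathlib.Analysis.SpecialFunctions.Integrals.Basic
import Mathlib.MeasureTheory.Integral.IntervalIntegral.FundThmCalculus

/-!
# SQ, stage 7, block END (helper24): the law of a filtration on the powers of a space (real analysis)
-/

set_option autoImplicit false

namespace Pool.Agent.SQ

open MeasureTheory intervalIntegral

private theorem int_pow24 (n : ℕ) {Γ : ℝ} (hΓ : 0 < Γ) (a b : ℝ) :
    ∫ x in a..b, (1 - x / Γ) ^ n = Γ * ((1 - a / Γ) ^ (n + 1) - (1 - b / Γ) ^ (n + 1)) / (n + 1) := by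
  have hn : ((n : ℝ) + 1) ≠ 0 := by positivity
  have h1 : ∀ x ∈ Set.uIcc a b, HasDerivAt (fun x : ℝ => -(Γ * (1 - x / Γ) ^ (n + 1) / (n + 1))) ((1 - x / Γ) ^ n) x := by
    intro x _
    have h2 : HasDerivAt (fun x : ℝ => 1 - x / Γ) (-(1 / Γ)) x := by
      simpa using ((hasDerivAt_id x).div_const Γ).const_sub 1
    have h3 := (((h2.pow (n + 1)).const_mul Γ).div_const ((n : ℝ) + 1)).neg
    refine h3.congr_deriv ?_
    push_cast
    have hΓ' := hΓ.ne'
    field_simp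
  rw [integral_eq_sub_of_hasDerivAt h1 ((by fun_prop : Continuous fun x : ℝ => (1 - x / Γ) ^ n).intervalIntegrable _ _)]
  field_simp
  ring

private theorem le_root24 (n : ℕ) {p : ℝ} (hp : 0 ≤ p) (hp1 : p ≤ 1) : p ≤ (p ^ (1 / (n : ℝ))) ^ n := by
  rcases Nat.eq_zero_or_pos n with h0 | h0
  · subst h0
    rw [pow_zero]
    exact hp1
  · have hnR : (n : ℝ) ≠ 0 := by exact_mod_cast h0.ne'
    rw [← Real.rpow_natCast, ← Real.rpow_mul hp, one_div_mul_cancel hnR, Real.rpow_one]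

/-- **END** -/
theorem end_real (n : ℕ) {η : ℝ} (hη : 0 ≤ η) (pa pM : ℝ → ℝ) (ha : Antitone pa) (hM : Antitone pM) (ha0 : ∀ x, 0 ≤ pa x)
    (ha1 : ∀ x, pa x ≤ 1) (hM0 : ∀ x, 0 ≤ pM x) (hM1 : ∀ x, pM x ≤ 1) (hX : ∀ x, 1 < x → pa x = 0)
    (hs : ∀ s l : ℝ, 0 ≤ l → l ≤ 1 → 0 < pa s → ((1 - l) + l * pa s ^ (1 / (n : ℝ))) ^ n - η ≤ pM (l * s - η))
    {t : ℝ} (ht : 0 ≤ t) (ht1 : t ≤ 1) :
    ((n + 1) * ∫ x in (0 : ℝ)..1, pa x) * Eq n t - η * (n + 3) ≤
      ∫ x in (0 : ℝ)..(t * ((n + 1) * ∫ x in (0 : ℝ)..1, pa x)), pM x := by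
  have hpi : ∀ a b : ℝ, IntervalIntegrable pa volume a b := fun a b => ha.intervalIntegrable
  have hPi : ∀ a b : ℝ, IntervalIntegrable pM volume a b := fun a b => hM.intervalIntegrable
  have hn0 : (0 : ℝ) ≤ n := Nat.cast_nonneg n
  obtain ⟨Γ, hΓ⟩ : ∃ Γ, Γ = ((n : ℝ) + 1) * ∫ x in (0 : ℝ)..1, pa x := ⟨_, rfl⟩
  have hI0 : 0 ≤ ∫ x in (0 : ℝ)..1, pa x := integral_nonneg zero_le_one fun x _ => ha0 x
  have hI1 : ∫ x in (0 : ℝ)..1, pa x ≤ 1 := by
    have h1 : ∫ x in (0 : ℝ)..1, pa x ≤ ∫ _x in (0 : ℝ)..1, (1 : ℝ) :=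
      integral_mono_on zero_le_one (hpi _ _) (by simp) fun x _ => ha1 x
    rwa [intervalIntegral.integral_const, smul_eq_mul, mul_one, sub_zero] at h1
  have hint : (∫ x in (0 : ℝ)..1, pa x) = Γ / (n + 1) := by
    rw [hΓ]
    field_simp
  have hΓ0 : 0 ≤ Γ := by rw [hΓ]; positivity
  have hΓ1 : Γ ≤ n + 1 := by
    rw [hΓ]
    nlinarith
  rw [← hΓ]
  rcases hΓ0.eq_or_lt with h0 | hΓp
  · rw [← h0, zero_mul, mul_zero, integral_same, zero_sub, Left.neg_nonpos_iff]
    positivity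
  obtain ⟨β, hβ⟩ : ∃ β, β = t * Γ := ⟨_, rfl⟩
  have hβ0 : 0 ≤ β := by rw [hβ]; positivity
  have hβΓ : β ≤ Γ := by
    rw [hβ]
    nlinarith
  have hEq : Γ * Eq n t = ∫ x in (0 : ℝ)..β, (1 - x / Γ) ^ n := by
    rw [int_pow24 n hΓp, Eq, hβ, mul_div_cancel_right₀ t hΓp.ne', zero_div, sub_zero, one_pow]
    ring
  have hqi : ∀ a b : ℝ, IntervalIntegrable (fun x : ℝ => (1 - x / Γ) ^ n) volume a b := fun a b =>
    (by fun_prop : Continuous fun x : ℝ => (1 - x / Γ) ^ n).intervalIntegrable _ _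
  have hPci : ∀ a b : ℝ, IntervalIntegrable (fun x => pM (x - η)) volume a b := by
    intro a b
    refine Antitone.intervalIntegrable ?_
    intro x y hxy
    exact hM (sub_le_sub_right hxy η)
  -- the substitution
  have hsub : ∫ x in (0 : ℝ)..β, pM (x - η) ≤ (∫ x in (0 : ℝ)..β, pM x) + η := by
    have h1 : ∫ x in (0 : ℝ)..β, pM (x - η) = ∫ x in (0 - η)..(β - η), pM x := integral_comp_sub_right (fun x => pM x) η
    have h2 : (∫ x in (0 - η)..(β - η), pM x) + ∫ x in (β - η)..β, pM x = ∫ x in (0 - η)..β, pM x :=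
      integral_add_adjacent_intervals (hPi _ _) (hPi _ _)
    have h3 : (∫ x in (0 - η)..(0 : ℝ), pM x) + ∫ x in (0 : ℝ)..β, pM x = ∫ x in (0 - η)..β, pM x :=
      integral_add_adjacent_intervals (hPi _ _) (hPi _ _)
    have h4 : 0 ≤ ∫ x in (β - η)..β, pM x := integral_nonneg (by linarith) fun x _ => hM0 x
    have h5 : ∫ x in (0 - η)..(0 : ℝ), pM x ≤ ∫ _x in (0 - η)..(0 : ℝ), (1 : ℝ) :=
      integral_mono_on (by linarith) (hPi _ _) (by simp) fun x _ => hM1 x
    have h6 : ∫ _x in (0 - η)..(0 : ℝ), (1 : ℝ) = η := by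
      rw [intervalIntegral.integral_const, smul_eq_mul]
      ring
    rw [h6] at h5
    rw [h1]
    linarith
  -- it suffices to bound the integral of `pM (x - η)`
  have key : Γ * Eq n t - η * β ≤ ∫ x in (0 : ℝ)..β, pM (x - η) := by
    by_cases hA : ∃ s, β ≤ s ∧ 0 < s ∧ 0 < pa s ∧ 1 - s / Γ ≤ (pa s) ^ (1 / (n : ℝ))
    · obtain ⟨s, h1, h2, h3, h4⟩ := hA
      have h5 : ∀ x ∈ Set.Icc 0 β, (1 - x / Γ) ^ n - η ≤ pM (x - η) := by
        intro x hx
        have hl0 : 0 ≤ x / s := div_nonneg hx.1 h2.le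
        have hl1 : x / s ≤ 1 := by
          rw [div_le_one h2]
          exact hx.2.trans h1
        have h6 := hs s (x / s) hl0 hl1 h3
        rw [div_mul_cancel₀ x h2.ne'] at h6
        refine le_trans (sub_le_sub_right (pow_le_pow_left₀ ?_ ?_ n) η) h6
        · rw [sub_nonneg, div_le_one hΓp]
          exact hx.2.trans hβΓ
        · have h7 := mul_le_mul_of_nonneg_left h4 hl0
          have h8 : x / s * (1 - s / Γ) = x / s - x / Γ := by
            field_simp
          linarith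
      calc Γ * Eq n t - η * β = ∫ x in (0 : ℝ)..β, ((1 - x / Γ) ^ n - η) := by
            rw [integral_sub (hqi _ _) (by simp), hEq, intervalIntegral.integral_const, smul_eq_mul]
            ring
        _ ≤ _ := integral_mono_on hβ0 ((hqi _ _).sub (by simp)) (hPci _ _) h5
    · push Not at hA
      have hB : ∀ s, β ≤ s → 0 < s → pa s = 0 ∨ (s < Γ ∧ pa s ≤ (1 - s / Γ) ^ n) := by
        intro s h1 h2
        rcases (ha0 s).eq_or_lt with h3 | h3
        · exact Or.inl h3.symm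
        right
        have h4 := hA s h1 h2 h3
        have h5 : 0 ≤ (pa s) ^ (1 / (n : ℝ)) := Real.rpow_nonneg (ha0 s) _
        have h6 : s / Γ < 1 := by linarith
        rw [div_lt_one hΓp] at h6
        exact ⟨h6, (le_root24 n (ha0 s) (ha1 s)).trans (pow_le_pow_left₀ h5 h4.le n)⟩
      -- the integral of `pa`
      have h1 : ∫ x in (1 : ℝ)..(max 1 Γ), pa x = 0 := by
        refine integral_zero_ae (Filter.Eventually.of_forall fun x hx => ?_)
        rw [Set.uIoc_of_le (le_max_left _ _)] at hx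
        exact hX x hx.1
      have h2 : ∫ x in Γ..(max 1 Γ), pa x = 0 := by
        refine integral_zero_ae (Filter.Eventually.of_forall fun x hx => ?_)
        rw [Set.uIoc_of_le (le_max_right _ _)] at hx
        rcases hB x (hβΓ.trans hx.1.le) (hΓp.trans hx.1) with h3 | ⟨h3, -⟩
        · exact h3
        · exact absurd h3 (not_lt.2 hx.1.le)
      have h3 : ∫ x in β..Γ, pa x ≤ ∫ x in β..Γ, (1 - x / Γ) ^ n := by
        refine integral_mono_on_of_le_Ioo hβΓ (hpi _ _) (hqi _ _) fun x hx => ?_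
        rcases hB x hx.1.le (lt_of_le_of_lt hβ0 hx.1) with h4 | ⟨-, h4⟩
        · rw [h4]
          refine pow_nonneg ?_ n
          rw [sub_nonneg, div_le_one hΓp]
          exact hx.2.le
        · exact h4
      have h4 : (∫ x in (0 : ℝ)..1, pa x) + ∫ x in (1 : ℝ)..(max 1 Γ), pa x = ∫ x in (0 : ℝ)..(max 1 Γ), pa x :=
        integral_add_adjacent_intervals (hpi _ _) (hpi _ _)
      have h5 : (∫ x in (0 : ℝ)..β, pa x) + ∫ x in β..Γ, pa x = ∫ x in (0 : ℝ)..Γ, pa x :=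
        integral_add_adjacent_intervals (hpi _ _) (hpi _ _)
      have h6 : (∫ x in (0 : ℝ)..Γ, pa x) + ∫ x in Γ..(max 1 Γ), pa x = ∫ x in (0 : ℝ)..(max 1 Γ), pa x :=
        integral_add_adjacent_intervals (hpi _ _) (hpi _ _)
      have h7 : (∫ x in (0 : ℝ)..β, (1 - x / Γ) ^ n) + ∫ x in β..Γ, (1 - x / Γ) ^ n = ∫ x in (0 : ℝ)..Γ, (1 - x / Γ) ^ n :=
        integral_add_adjacent_intervals (hqi _ _) (hqi _ _)
      have h8 : ∫ x in (0 : ℝ)..Γ, (1 - x / Γ) ^ n = Γ / (n + 1) := by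
        rw [int_pow24 n hΓp, div_self hΓp.ne', zero_div, sub_zero, one_pow, sub_self, zero_pow (Nat.succ_ne_zero n), sub_zero,
          mul_one]
      have h9 : Γ * Eq n t ≤ ∫ x in (0 : ℝ)..β, pa x := by
        rw [hEq]
        linarith
      have h10 : ∀ x ∈ Set.Ioo 0 β, pa x - η ≤ pM (x - η) := by
        intro x hx
        rcases (ha0 x).eq_or_lt with h11 | h11
        · rw [← h11]
          have := hM0 (x - η)
          linarith
        · have h12 := hs x 1 zero_le_one le_rfl h11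
          rw [sub_self, zero_add, one_mul, one_mul] at h12
          have h13 := le_root24 n (ha0 x) (ha1 x)
          linarith
      calc Γ * Eq n t - η * β ≤ (∫ x in (0 : ℝ)..β, pa x) - η * β := sub_le_sub_right h9 _
        _ = ∫ x in (0 : ℝ)..β, (pa x - η) := by
            rw [integral_sub (hpi _ _) (by simp), intervalIntegral.integral_const, smul_eq_mul]
            ring
        _ ≤ _ := integral_mono_on_of_le_Ioo hβ0 ((hpi _ _).sub (by simp)) (hPci _ _) h10
  rw [← hβ]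
  have h14 : η * β ≤ η * (n + 1) := mul_le_mul_of_nonneg_left (hβΓ.trans hΓ1) hη
  linarith

end Pool.Agent.SQ
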